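import Mathlib

set_option autoImplicit false

/-!
# A polynomial pattern that is partition regular over the naturals but not over `T`

`T` is the set of nonzero polynomials in one variable with natural-number coefficients and constant
coefficient zero.  The pattern is `{z x², w x², (z+w)(3y²+y)}`.
-/

namespace Pool.Agent.Results.MP_700e60_co.NotEquivalent

open Polynomial

/-- A polynomial pattern in `m` variables: a nonempty finite family of nonzero polynomials with
coefficients in `ℕ` and constant term zero. -/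
def IsPattern {m : ℕ} (F : Finset (MvPolynomial (Fin m) ℕ)) : Prop :=
  F.Nonempty ∧ ∀ P ∈ F, P ≠ 0 ∧ MvPolynomial.constantCoeff P = 0

/-- Partition regularity of `F` over a subset `S` of a commutative semiring `R`: for every coloring
with finitely many colors there are `a₁, …, aₘ ∈ S` such that all the values `P(a₁, …, aₘ)`,
`P ∈ F`, have the same color. (Coloring all of `R` or only `S` amounts to the same.) -/
def PartitionRegularOver {R : Type} [CommSemiring R] (S : Set R) {m : ℕ}
    (F : Finset (MvPolynomial (Fin m) ℕ)) : Prop :=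
  ∀ (k : ℕ) (c : R → Fin k), ∃ a : Fin m → R, (∀ i, a i ∈ S) ∧
    ∃ j : Fin k, ∀ P ∈ F, c (MvPolynomial.aeval a P) = j

/-- The positive integers. -/
def PosNat : Set ℕ := {n | 0 < n}

/-- The set `T` of nonzero polynomials in one variable with coefficients in `ℕ` and
constant term zero. -/
def T : Set ℕ[X] := {p | p ≠ 0 ∧ p.coeff 0 = 0}

/-- A strong form of partition regularity over `ℕ`: for every finite coloring of `ℕ` and every
bound `M` there are `a₁, …, aₘ > M` such that the values `P(a)`, `P ∈ F`, are pairwise distinct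
and all have the same color. -/
def StronglyPartitionRegularNat {m : ℕ} (F : Finset (MvPolynomial (Fin m) ℕ)) : Prop :=
  ∀ (M k : ℕ) (c : ℕ → Fin k), ∃ a : Fin m → ℕ, (∀ i, M < a i) ∧
    (∀ P ∈ F, ∀ Q ∈ F, P ≠ Q → MvPolynomial.aeval a P ≠ MvPolynomial.aeval a Q) ∧
    ∃ j : Fin k, ∀ P ∈ F, c (MvPolynomial.aeval a P) = j

/-- The pattern `{z x², w x², (z+w)(3y²+y)}` in the variables `z, w, x, y = X 0, X 1, X 2, X 3`. -/
noncomputable def theF : Finset (MvPolynomial (Fin 4) ℕ) :=
  {MvPolynomial.X 0 * MvPolynomial.X 2 ^ 2, MvPolynomial.X 1 * MvPolynomial.X 2 ^ 2,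
    (MvPolynomial.X 0 + MvPolynomial.X 1) * (3 * MvPolynomial.X 3 ^ 2 + MvPolynomial.X 3)}

theorem aeval_one {R : Type} [CommSemiring R] (a : Fin 4 → R) :
    MvPolynomial.aeval a (MvPolynomial.X 0 * MvPolynomial.X 2 ^ 2 : MvPolynomial (Fin 4) ℕ)
      = a 0 * a 2 ^ 2 := by simp

theorem aeval_two {R : Type} [CommSemiring R] (a : Fin 4 → R) :
    MvPolynomial.aeval a (MvPolynomial.X 1 * MvPolynomial.X 2 ^ 2 : MvPolynomial (Fin 4) ℕ)
      = a 1 * a 2 ^ 2 := by simp

theorem aeval_three {R : Type} [CommSemiring R] (a : Fin 4 → R) :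
    MvPolynomial.aeval a ((MvPolynomial.X 0 + MvPolynomial.X 1) *
      (3 * MvPolynomial.X 3 ^ 2 + MvPolynomial.X 3) : MvPolynomial (Fin 4) ℕ)
      = (a 0 + a 1) * (3 * a 3 ^ 2 + a 3) := by simp

theorem isPattern_theF : IsPattern theF := by
  refine ⟨⟨_, Finset.mem_insert_self _ _⟩, ?_⟩
  intro P hP
  simp only [theF, Finset.mem_insert, Finset.mem_singleton] at hP
  rcases hP with rfl | rfl | rfl
  · refine ⟨fun h => ?_, by simp⟩
    have := congrArg (MvPolynomial.aeval (fun _ : Fin 4 => (1 : ℕ))) h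
    rw [aeval_one] at this
    simp at this
  · refine ⟨fun h => ?_, by simp⟩
    have := congrArg (MvPolynomial.aeval (fun _ : Fin 4 => (1 : ℕ))) h
    rw [aeval_two] at this
    simp at this
  · refine ⟨fun h => ?_, by simp⟩
    have := congrArg (MvPolynomial.aeval (fun _ : Fin 4 => (1 : ℕ))) h
    rw [aeval_three] at this
    simp at this

/-! ### Partition regularity over `ℕ` -/

/-- The equation `x² = 3y² + y` has arbitrarily large solutions. -/
theorem exists_large_solution (M : ℕ) : ∃ x y : ℕ, M < x ∧ M < y ∧ x ^ 2 = 3 * y ^ 2 + y := by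
  induction M with
  | zero => exact ⟨2, 1, by norm_num, by norm_num, by norm_num⟩
  | succ M ih =>
    obtain ⟨x, y, hx, hy, h⟩ := ih
    refine ⟨7 * x + 12 * y + 2, 4 * x + 7 * y + 1, by omega, by omega, ?_⟩
    nlinarith [h]

/-- Schur's theorem with distinct summands, from Hindman's theorem. -/
theorem schur (k : ℕ) (c : ℕ → Fin k) :
    ∃ z w : ℕ, 0 < z ∧ 0 < w ∧ z ≠ w ∧ c z = c w ∧ c (z + w) = c w := by
  let s : Set (Set ℕ+) := Set.range (fun j : Fin k => {n : ℕ+ | c n = j})
  have sfin : s.Finite := Set.finite_range _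
  have scov : (⊤ : Set ℕ+) ⊆ ⋃₀ s := by
    intro n _
    exact Set.mem_sUnion.2 ⟨_, ⟨c n, rfl⟩, rfl⟩
  obtain ⟨t, ⟨j, rfl⟩, a, ha⟩ := Hindman.exists_FS_of_finite_cover s sfin scov
  have h0 : c (a.get 0 : ℕ) = j := ha (Hindman.FS.singleton a 0)
  have h1 : c (a.get 1 : ℕ) = j := ha (Hindman.FS.singleton a 1)
  have h01 : c ((a.get 0 + a.get 1 : ℕ+) : ℕ) = j := ha (Hindman.FS.add_two a 0 1 (by norm_num))
  have h12 : c ((a.get 1 + a.get 2 : ℕ+) : ℕ) = j := ha (Hindman.FS.add_two a 1 2 (by norm_num))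
  have h012 : c ((a.get 0 + (a.get 1 + a.get 2) : ℕ+) : ℕ) = j := by
    apply ha
    refine Hindman.FS.cons a _ ?_
    refine Hindman.FS.cons a.tail _ ?_
    exact Hindman.FS.head a.tail.tail
  have p0 := (a.get 0).pos
  have p1 := (a.get 1).pos
  have p2 := (a.get 2).pos
  by_cases hne : (a.get 0 : ℕ) = (a.get 1 : ℕ)
  · refine ⟨(a.get 0 : ℕ), ((a.get 1 + a.get 2 : ℕ+) : ℕ), p0, (a.get 1 + a.get 2).pos, ?_, ?_, ?_⟩
    · rw [PNat.add_coe]; omega
    · rw [h0, h12]
    · rw [h12, ← PNat.add_coe, h012]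
  · refine ⟨(a.get 0 : ℕ), (a.get 1 : ℕ), p0, p1, hne, ?_, ?_⟩
    · rw [h0, h1]
    · rw [h1, ← PNat.add_coe, h01]

theorem strong_theF : StronglyPartitionRegularNat theF := by
  intro M k c
  obtain ⟨x, y, hx, hy, hxy⟩ := exists_large_solution M
  obtain ⟨z, w, hz, hw, hzw, h1, h2⟩ := schur k (fun n => c (n * (M + 1) * x ^ 2))
  have hx0 : 0 < x := by omega
  have hx2 : 0 < x ^ 2 := by positivity
  let a : Fin 4 → ℕ := ![z * (M + 1), w * (M + 1), x, y]
  have a0 : a 0 = z * (M + 1) := rfl
  have a1 : a 1 = w * (M + 1) := rfl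
  have a2 : a 2 = x := rfl
  have a3 : a 3 = y := rfl
  have e1 := aeval_one a
  have e2 := aeval_two a
  have e3 := aeval_three a
  rw [a0, a2] at e1
  rw [a1, a2] at e2
  rw [a0, a1, a3, ← hxy] at e3
  have hMz : 0 < z * (M + 1) := by positivity
  have hMw : 0 < w * (M + 1) := by positivity
  have hne : z * (M + 1) ≠ w * (M + 1) := fun h =>
    hzw (Nat.eq_of_mul_eq_mul_right (Nat.succ_pos M) h)
  refine ⟨a, ?_, ?_, c (w * (M + 1) * x ^ 2), ?_⟩
  · intro i
    fin_cases i
    · change M < z * (M + 1); nlinarith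
    · change M < w * (M + 1); nlinarith
    · exact hx
    · exact hy
  · intro P hP Q hQ hPQ
    simp only [theF, Finset.mem_insert, Finset.mem_singleton] at hP hQ
    have d12 : z * (M + 1) * x ^ 2 ≠ w * (M + 1) * x ^ 2 := fun h =>
      hne (Nat.eq_of_mul_eq_mul_right hx2 h)
    have d13 : z * (M + 1) * x ^ 2 ≠ (z * (M + 1) + w * (M + 1)) * x ^ 2 := fun h => by
      have := Nat.eq_of_mul_eq_mul_right hx2 h
      omega
    have d23 : w * (M + 1) * x ^ 2 ≠ (z * (M + 1) + w * (M + 1)) * x ^ 2 := fun h => by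
      have := Nat.eq_of_mul_eq_mul_right hx2 h
      omega
    rcases hP with rfl | rfl | rfl <;> rcases hQ with rfl | rfl | rfl <;>
      first
        | exact absurd rfl hPQ
        | (rw [e1, e2]; exact d12)
        | (rw [e1, e3]; exact d13)
        | (rw [e2, e1]; exact d12.symm)
        | (rw [e2, e3]; exact d23)
        | (rw [e3, e1]; exact d13.symm)
        | (rw [e3, e2]; exact d23.symm)
  · intro P hP
    simp only [theF, Finset.mem_insert, Finset.mem_singleton] at hP
    rcases hP with rfl | rfl | rfl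
    · rw [e1]; exact h1
    · rw [e2]
    · rw [e3, ← add_mul]; exact h2

theorem regular_nat_theF : PartitionRegularOver PosNat theF := by
  intro k c
  obtain ⟨a, ha, -, hj⟩ := strong_theF 0 k c
  exact ⟨a, ha, hj⟩

/-! ### Failure over `T` -/

/-- The last nonzero base-7 digit of `n` (for `n ≠ 0`), as an element of `ZMod 7`. -/
noncomputable def dig (n : ℕ) : ZMod 7 := ((ordCompl[7] n : ℕ) : ZMod 7)

theorem dig_mul (a b : ℕ) : dig (a * b) = dig a * dig b := by
  unfold dig
  rw [Nat.ordCompl_mul]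
  push_cast
  rfl

theorem prime_seven : Nat.Prime 7 := by norm_num

theorem dig_ne_zero {a : ℕ} (ha : a ≠ 0) : dig a ≠ 0 := by
  unfold dig
  intro h
  rw [ZMod.natCast_eq_zero_iff] at h
  exact Nat.not_dvd_ordCompl prime_seven ha h

theorem dig_pow_mul (i u : ℕ) (hu : ¬ 7 ∣ u) : dig (7 ^ i * u) = (u : ZMod 7) := by
  unfold dig
  rw [Nat.ordCompl_pow_mul_of_not_dvd i prime_seven hu]

theorem exists_decomp {a : ℕ} (ha : a ≠ 0) :
    ∃ i u : ℕ, ¬ 7 ∣ u ∧ a = 7 ^ i * u ∧ dig a = (u : ZMod 7) := by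
  refine ⟨a.factorization 7, ordCompl[7] a, Nat.not_dvd_ordCompl prime_seven ha, ?_, rfl⟩
  exact (Nat.ordProj_mul_ordCompl_eq_self a 7).symm

/-- If two positive integers have the same last nonzero digit `d` in base 7, then their sum has
last nonzero digit `d` or `2d`. -/
theorem dig_add_aux {a b : ℕ} (ha : a ≠ 0) (h : dig a = dig b)
    {i j u v : ℕ} (hu : ¬ 7 ∣ u) (hau : a = 7 ^ i * u) (hbv : b = 7 ^ j * v)
    (hdu : dig a = (u : ZMod 7)) (hdv : dig b = (v : ZMod 7)) (hij : i ≤ j) :
    dig (a + b) = dig a ∨ dig (a + b) = 2 * dig a := by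
  rcases Nat.eq_or_lt_of_le hij with rfl | hlt
  · right
    have hsum : a + b = 7 ^ i * (u + v) := by rw [hau, hbv]; ring
    have huv : ¬ 7 ∣ (u + v) := by
      intro hd
      rw [← ZMod.natCast_eq_zero_iff] at hd
      push_cast at hd
      rw [← hdu, ← hdv, ← h] at hd
      have hne := dig_ne_zero ha
      generalize dig a = t at hd hne
      revert t
      decide
    rw [hsum, dig_pow_mul i _ huv]
    push_cast
    rw [← hdu, ← hdv, ← h]
    ring
  · left
    obtain ⟨d, rfl⟩ : ∃ d, j = i + (d + 1) := ⟨j - i - 1, by omega⟩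
    have hsum : a + b = 7 ^ i * (u + 7 * (7 ^ d * v)) := by rw [hau, hbv]; ring
    have huv : ¬ 7 ∣ (u + 7 * (7 ^ d * v)) := by
      intro hd
      exact hu ((Nat.dvd_add_left (Dvd.intro _ rfl)).1 hd)
    rw [hsum, dig_pow_mul i _ huv, hdu]
    push_cast
    have : (7 : ZMod 7) = 0 := by decide
    rw [this]
    ring

theorem dig_add {a b : ℕ} (ha : a ≠ 0) (hb : b ≠ 0) (h : dig a = dig b) :
    dig (a + b) = dig a ∨ dig (a + b) = 2 * dig a := by
  obtain ⟨i, u, hu, hau, hdu⟩ := exists_decomp ha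
  obtain ⟨j, v, hv, hbv, hdv⟩ := exists_decomp hb
  rcases le_total i j with hij | hij
  · exact dig_add_aux ha h hu hau hbv hdu hdv hij
  · have := dig_add_aux hb h.symm hv hbv hau hdv hdu hij
    rw [add_comm b a, ← h] at this
    exact this

theorem not_regular_T : ¬ PartitionRegularOver T theF := by
  intro hreg
  let e : ZMod 7 ≃ Fin 7 := Equiv.refl _
  obtain ⟨a, haT, j, hj⟩ := hreg 7 (fun p : ℕ[X] => e (dig p.leadingCoeff))
  have h1 := hj _ (by simp [theF] : (MvPolynomial.X 0 * MvPolynomial.X 2 ^ 2 :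
    MvPolynomial (Fin 4) ℕ) ∈ theF)
  have h2 := hj _ (by simp [theF] : (MvPolynomial.X 1 * MvPolynomial.X 2 ^ 2 :
    MvPolynomial (Fin 4) ℕ) ∈ theF)
  have h3 := hj _ (by simp [theF] : ((MvPolynomial.X 0 + MvPolynomial.X 1) *
      (3 * MvPolynomial.X 3 ^ 2 + MvPolynomial.X 3) : MvPolynomial (Fin 4) ℕ) ∈ theF)
  rw [aeval_one] at h1
  rw [aeval_two] at h2
  rw [aeval_three] at h3
  have h12 := e.injective (h1.trans h2.symm)
  have h13 := e.injective (h1.trans h3.symm)
  obtain ⟨hz, -⟩ := haT 0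
  obtain ⟨hw, -⟩ := haT 1
  obtain ⟨hx, -⟩ := haT 2
  obtain ⟨hy, hy0⟩ := haT 3
  generalize a 0 = z at *
  generalize a 1 = w at *
  generalize a 2 = x at *
  generalize a 3 = y at *
  have lz : z.leadingCoeff ≠ 0 := leadingCoeff_ne_zero.2 hz
  have lw : w.leadingCoeff ≠ 0 := leadingCoeff_ne_zero.2 hw
  have lx : x.leadingCoeff ≠ 0 := leadingCoeff_ne_zero.2 hx
  have ly : y.leadingCoeff ≠ 0 := leadingCoeff_ne_zero.2 hy
  rw [leadingCoeff_mul, leadingCoeff_mul, leadingCoeff_pow, dig_mul, dig_mul, pow_two, dig_mul]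
    at h12
  have dz := dig_ne_zero lz
  have dx := dig_ne_zero lx
  have hzw : dig z.leadingCoeff = dig w.leadingCoeff := by
    generalize dig z.leadingCoeff = p at h12
    generalize dig w.leadingCoeff = q at h12
    generalize dig x.leadingCoeff = r at h12 dx
    revert p q r
    decide
  -- the leading coefficient of z + w
  have hsum : dig (z + w).leadingCoeff = dig z.leadingCoeff ∨
      dig (z + w).leadingCoeff = 2 * dig z.leadingCoeff := by
    rcases lt_trichotomy z.degree w.degree with hlt | heq | hgt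
    · left
      rw [leadingCoeff_add_of_degree_lt hlt, hzw]
    · have hne : z.leadingCoeff + w.leadingCoeff ≠ 0 := by omega
      rw [leadingCoeff_add_of_degree_eq heq hne]
      exact dig_add lz lw hzw
    · left
      rw [leadingCoeff_add_of_degree_lt' hgt]
  -- the leading coefficient of 3y² + y
  have hydeg : 0 < y.natDegree := by
    rcases Nat.eq_zero_or_pos y.natDegree with h0 | h0
    · exfalso
      apply ly
      rw [leadingCoeff, h0, hy0]
    · exact h0
  have hquad : (3 * y ^ 2 + y).leadingCoeff = 3 * y.leadingCoeff ^ 2 := by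
    have h3C : (3 : ℕ[X]) = C 3 := rfl
    have hl : (3 * y ^ 2).leadingCoeff = 3 * y.leadingCoeff ^ 2 := by
      rw [leadingCoeff_mul, leadingCoeff_pow, h3C, leadingCoeff_C]
    have hnd : (3 * y ^ 2).natDegree = 2 * y.natDegree := by
      rw [h3C, natDegree_C_mul (by norm_num), natDegree_pow]
    have hlt : y.degree < (3 * y ^ 2).degree := by
      apply degree_lt_degree
      rw [hnd]
      omega
    rw [leadingCoeff_add_of_degree_lt' hlt, hl]
  rw [leadingCoeff_mul, leadingCoeff_mul, leadingCoeff_pow, hquad, dig_mul, dig_mul, dig_mul,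
    pow_two, pow_two, dig_mul, dig_mul] at h13
  have hd3 : dig 3 = 3 := by
    have := dig_pow_mul 0 3 (by norm_num)
    simpa using this
  rw [hd3] at h13
  have dy := dig_ne_zero ly
  generalize dig (z + w).leadingCoeff = s at h13 hsum
  generalize dig z.leadingCoeff = p at h13 hsum dz
  generalize dig x.leadingCoeff = q at h13 dx
  generalize dig y.leadingCoeff = r at h13 dy
  rcases hsum with rfl | rfl
  · clear h1 h2 h3 h12 hzw
    revert s q r
    decide
  · clear h1 h2 h3 h12 hzw
    revert p q r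
    decide

/-- The polynomial pattern `{z x², w x², (z+w)(3y²+y)}` is partition regular over the positive
integers (even with all variables larger than any prescribed bound and with pairwise distinct
values), but it is not partition regular over `T`.  Hence partition regularity over `T` is not
equivalent to partition regularity over `ℕ`. -/
theorem result :
    IsPattern theF ∧ PartitionRegularOver PosNat theF ∧ StronglyPartitionRegularNat theF ∧
      ¬ PartitionRegularOver T theF :=
  ⟨isPattern_theF, regular_nat_theF, strong_theF, not_regular_T⟩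

end Pool.Agent.Results.MP_700e60_co.NotEquivalent
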